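import Mathlib

set_option autoImplicit false

namespace Pool.Agent.Results.MP_4956c5_co.Disproof

open Finset

/-- The AnyPrice share of an agent with item values `v` and entitlement `w`. -/
noncomputable def APS {m : ℕ} (v : Fin m → ℝ) (w : ℝ) : ℝ :=
  sInf {x | ∃ p : Fin m → ℝ, (∀ j, 0 ≤ p j) ∧ ∑ j, p j = 1 ∧
    IsGreatest {y | ∃ S : Finset (Fin m), ∑ j ∈ S, p j ≤ w ∧ y = ∑ j ∈ S, v j} x}

/-- The bundle of agent `i` when item `j` goes to agent `A j`. -/
def bundle {n m : ℕ} (A : Fin m → Fin n) (i : Fin n) : Finset (Fin m) := univ.filter (fun j => A j = i)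

lemma aps_le (w : ℝ) (hw : 0 ≤ w) (hw1 : w < 1) : APS ![2, 1, 1] w ≤ 2 := by
  apply csInf_le
  · refine ⟨0, ?_⟩
    rintro x ⟨p, -, -, -, h⟩
    exact h ⟨∅, by simpa using hw, by simp⟩
  · refine ⟨![1, 0, 0], fun j => by fin_cases j <;> simp, by simp [Fin.sum_univ_three],
      ⟨{1, 2}, by simpa using hw, by simp; norm_num⟩, ?_⟩
    rintro y ⟨S, h1, rfl⟩
    have : (0 : Fin 3) ∉ S := fun h => by
      have := single_le_sum (f := (![1, 0, 0] : Fin 3 → ℝ)) (fun j _ => by fin_cases j <;> simp) h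
      simp at this; linarith
    refine (sum_le_sum_of_subset_of_nonneg (t := {1, 2}) (fun j hj => ?_)
      (fun j _ _ => by fin_cases j <;> simp)).trans (by simp; norm_num)
    fin_cases j
    · exact absurd hj this
    · simp
    · simp

theorem result : ∃ (n m : ℕ) (w : Fin n → ℝ) (v : Fin n → Fin m → ℝ) (A : Fin m → Fin n),
    2 ≤ n ∧ (∀ i, 0 < w i) ∧ ∑ i, w i = 1 ∧ (∀ i j, 0 ≤ v i j) ∧
    (∀ i, APS (v i) (w i) ≤ ∑ j ∈ bundle A i, v i j) ∧
    ∃ i, ∑ j ∈ bundle A i, v i j < w i * ∑ j, v i j ∧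
      ∀ g, g ∉ bundle A i → ∑ j ∈ insert g (bundle A i), v i j < w i * ∑ j, v i j := by
  have b0 : bundle ![0, 1, 1] (0 : Fin 2) = {0} := by decide
  have b1 : bundle ![0, 1, 1] (1 : Fin 2) = {1, 2} := by decide
  refine ⟨2, 3, ![4 / 5, 1 / 5], fun _ => ![2, 1, 1], ![0, 1, 1], le_rfl,
    fun i => by fin_cases i <;> simp, by simp [Fin.sum_univ_two]; norm_num,
    fun _ j => by fin_cases j <;> simp, ?_, 0, ?_, fun g hg => ?_⟩
  · rw [Fin.forall_fin_two, b0, b1]
    exact ⟨(aps_le _ (by simp; norm_num) (by simp; norm_num)).trans (by simp),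
      (aps_le _ (by simp) (by simp; norm_num)).trans (by simp; norm_num)⟩
  · rw [b0]; simp [Fin.sum_univ_three]; norm_num
  · rw [sum_insert hg, b0]
    rw [b0] at hg
    fin_cases g
    · simp at hg
    · simp [Fin.sum_univ_three]; norm_num
    · simp [Fin.sum_univ_three]; norm_num

end Pool.Agent.Results.MP_4956c5_co.Disproof
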